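import Pool.Agent.MP_8ccfd2_co.Five

namespace Pool.Agent.Results.MP_8ccfd2_co.FiveCycle

open Pool.Agent.MP_8ccfd2_co

theorem result :
    Filter.Tendsto (fun n : ℕ => (rsat n (SimpleGraph.cycleGraph 5) : ℝ) / (n : ℝ)) Filter.atTop
      (nhds (9 / 5)) :=
  five

end Pool.Agent.Results.MP_8ccfd2_co.FiveCycle
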