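import Pool.Agent.MP_8ccfd2_co.Low

namespace Pool.Agent.Results.MP_8ccfd2_co.LongLower

open Pool.Agent.MP_8ccfd2_co

theorem result : ∀ r n : ℕ, 6 ≤ r → r ≤ n →
    6 / 5 * (n : ℝ) + (2 : ℝ) ^ (-(r : ℝ) / 4) * (n - 3 * (2 : ℝ) ^ ((r : ℝ) / 2)) / 114 ≤
      (rsat n (SimpleGraph.cycleGraph r) : ℝ) :=
  fun _ _ hr hn => Low.lower hr hn

end Pool.Agent.Results.MP_8ccfd2_co.LongLower
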