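import Pool.Agent.MP_8ccfd2_co.LongC

namespace Pool.Agent.Results.MP_8ccfd2_co.LongUpper

open Pool.Agent.MP_8ccfd2_co

theorem result : ∀ r : ℕ, 42 ≤ r → ∀ᶠ n : ℕ in Filter.atTop,
    (rsat n (SimpleGraph.cycleGraph r) : ℝ) ≤ (6 / 5 + r * (2 : ℝ) ^ (-(r : ℝ) / 24)) * n :=
  fun _ hr => LC.upper hr

end Pool.Agent.Results.MP_8ccfd2_co.LongUpper
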